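import Pool.Agent.Helper60_AK.StmtF

set_option autoImplicit false

open Filter Topology Set Metric

namespace Pool.Agent.AK.H20

/-- local Taylor series at a point of the closure -/
theorem loc {Ω : Set C2} {f : C2 → ℂ} {k0 : ℕ} (hΩ : IsOpen Ω)
    (hf : ContDiffOn ℝ (k0 : WithTop ℕ∞) f (closure Ω)) (x : C2) (hx : x ∈ closure Ω) :
    ∃ (p : C2 → FormalMultilinearSeries ℝ C2 ℂ) (V : Set C2), IsOpen V ∧ x ∈ V ∧
      (∀ j ≤ k0, ContinuousOn (fun y => p y j) (closure Ω ∩ V)) ∧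
      (∀ j ≤ k0, ∀ y ∈ Ω ∩ V, p y j = iteratedFDeriv ℝ j f y) := by
  obtain ⟨u, hu, p, hp⟩ := contDiffWithinAt_nat.1 (hf x hx)
  rw [insert_eq_of_mem hx] at hu
  obtain ⟨V, hV, hxV, hVu⟩ := mem_nhdsWithin.1 hu
  refine ⟨p, V, hV, hxV, ?_, ?_⟩
  · intro j hj
    apply (hp.cont j (by exact_mod_cast hj)).mono
    rintro y ⟨h1, h2⟩
    exact hVu ⟨h2, h1⟩
  · intro j hj y hy
    have hsub : Ω ∩ V ⊆ u := fun z hz => hVu ⟨hz.2, subset_closure hz.1⟩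
    have ho : IsOpen (Ω ∩ V) := hΩ.inter hV
    have h1 := (hp.mono hsub).eq_iteratedFDerivWithin_of_uniqueDiffOn (m := j)
      (by exact_mod_cast hj) ho.uniqueDiffOn hy
    rw [h1]
    exact iteratedFDerivWithin_of_isOpen j ho hy

theorem near {Ω : Set C2} {f : C2 → ℂ} {k0 : ℕ} (hΩ : IsOpen Ω)
    (hf : ContDiffOn ℝ (k0 : WithTop ℕ∞) f (closure Ω)) (x : C2) (hx : x ∈ closure Ω)
    (j : ℕ) (hj : j ≤ k0) (δ : ℝ) (hδ : 0 < δ) :
    ∃ (L : ContinuousMultilinearMap ℝ (fun _ : Fin j => C2) ℂ) (O : Set C2), IsOpen O ∧ x ∈ O ∧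
      ∀ y ∈ Ω ∩ O, ‖iteratedFDeriv ℝ j f y - L‖ < δ := by
  obtain ⟨p, V, hV, hxV, hc, he⟩ := loc hΩ hf x hx
  have h1 := hc j hj x ⟨hx, hxV⟩
  have h2 := Metric.tendsto_nhds.1 h1 δ hδ
  obtain ⟨W, hW, hxW, hWs⟩ := mem_nhdsWithin.1 h2
  refine ⟨p x j, W ∩ V, hW.inter hV, ⟨hxW, hxV⟩, ?_⟩
  rintro y ⟨hy, hyW, hyV⟩
  have h3 : dist (p y j) (p x j) < δ := hWs ⟨hyW, subset_closure hy, hyV⟩
  rw [he j hj y ⟨hy, hyV⟩, dist_eq_norm] at h3
  exact h3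

theorem f0 (h0a : F0aStmt) : F0Stmt := by
  intro Ω ρ f k0 hD hhol hf
  have hΩ : IsOpen Ω := by
    rw [hD.eq]
    exact isOpen_lt hD.smooth.continuous continuous_const
  have hcpt : IsCompact (closure Ω) := hD.bdd.isCompact_closure
  have hbd : ∀ j ≤ k0, ∃ C : ℝ, ∀ y ∈ Ω, ‖iteratedFDeriv ℝ j f y‖ ≤ C := by
    intro j hj
    have key : ∃ C : ℝ, ∀ y ∈ Ω ∩ closure Ω, ‖iteratedFDeriv ℝ j f y‖ ≤ C := by
      apply hcpt.induction_on (p := fun s => ∃ C : ℝ, ∀ y ∈ Ω ∩ s, ‖iteratedFDeriv ℝ j f y‖ ≤ C)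
      · exact ⟨0, fun y hy => absurd hy.2 (notMem_empty _)⟩
      · rintro s t hst ⟨C, hC⟩
        exact ⟨C, fun y hy => hC y ⟨hy.1, hst hy.2⟩⟩
      · rintro s t ⟨C, hC⟩ ⟨C', hC'⟩
        refine ⟨max C C', fun y hy => ?_⟩
        rcases hy.2 with h | h
        · exact (hC y ⟨hy.1, h⟩).trans (le_max_left _ _)
        · exact (hC' y ⟨hy.1, h⟩).trans (le_max_right _ _)
      · intro x hx
        obtain ⟨L, O, hO, hxO, hL⟩ := near hΩ hf x hx j hj 1 one_pos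
        refine ⟨O, mem_nhdsWithin_of_mem_nhds (hO.mem_nhds hxO), ‖L‖ + 1, ?_⟩
        intro y hy
        have h1 := hL y hy
        have h2 := norm_le_norm_add_norm_sub' (iteratedFDeriv ℝ j f y) L
        linarith
    obtain ⟨C, hC⟩ := key
    exact ⟨C, fun y hy => hC y ⟨hy, subset_closure hy⟩⟩
  choose! C hC using hbd
  refine ⟨∑ j ∈ Finset.range (k0 + 1), |C j|, hhol, (h0a Ω f hΩ hhol).2, ?_, ?_⟩
  · intro j hj x hx
    have h1 : |C j| ≤ ∑ j ∈ Finset.range (k0 + 1), |C j| :=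
      Finset.single_le_sum (f := fun j => |C j|) (fun i _ => abs_nonneg _)
        (Finset.mem_range.2 (by omega))
    exact (hC j hj x hx).trans ((le_abs_self _).trans h1)
  · intro j hj δ hδ
    have hcov : ∀ x : closure Ω, ∃ O : Set C2, IsOpen O ∧ (x : C2) ∈ O ∧
        ∀ y ∈ Ω ∩ O, ∀ y' ∈ Ω ∩ O,
          ‖iteratedFDeriv ℝ j f y - iteratedFDeriv ℝ j f y'‖ ≤ δ := by
      intro x
      obtain ⟨L, O, hO, hxO, hL⟩ := near hΩ hf x x.2 j hj (δ / 2) (by linarith)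
      refine ⟨O, hO, hxO, ?_⟩
      intro y hy y' hy'
      have h1 := hL y hy
      have h2 := hL y' hy'
      have h3 := norm_sub_le_norm_sub_add_norm_sub (iteratedFDeriv ℝ j f y) L
        (iteratedFDeriv ℝ j f y')
      rw [norm_sub_rev L] at h3
      linarith
    choose O hO hxO hOs using hcov
    obtain ⟨r, hr, hrs⟩ := lebesgue_number_lemma_of_metric hcpt (c := O) hO (by
      intro x hx
      exact mem_iUnion.2 ⟨⟨x, hx⟩, hxO ⟨x, hx⟩⟩)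
    refine ⟨r, hr, ?_⟩
    intro x hx y hy hxy
    obtain ⟨i, hi⟩ := hrs x (subset_closure hx)
    apply hOs i
    · exact ⟨hx, hi (mem_ball_self hr)⟩
    · refine ⟨hy, hi ?_⟩
      rw [mem_ball, dist_comm, dist_eq_norm]
      exact hxy

end Pool.Agent.AK.H20
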